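import Pool.Agent.Helper94_MNE.ARC2

/-! Squad MNE, row ARC (helper94). -/

set_option autoImplicit false

namespace Pool.Agent.MNE.H94

open Finset

theorem log_gap {a b M : ℕ} (ha : 0 < a) (hb : b ≤ M) (hab : a < b) :
    1 / (M : ℝ) ≤ Real.log b - Real.log a := by
  have ha' : (0 : ℝ) < a := by exact_mod_cast ha
  have hb' : (0 : ℝ) < b := by
    have : 0 < b := by omega
    exact_mod_cast this
  have h1 := Real.log_le_sub_one_of_pos (div_pos ha' hb')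
  rw [Real.log_div ha'.ne' hb'.ne'] at h1
  have h2 : (a : ℝ) + 1 ≤ b := by exact_mod_cast hab
  have h3 : (b : ℝ) ≤ M := by exact_mod_cast hb
  have h4 : 1 / (M : ℝ) ≤ 1 / b := one_div_le_one_div_of_le hb' h3
  have h5 : (a : ℝ) / b ≤ 1 - 1 / b := by
    rw [div_le_iff₀ hb', sub_mul, one_div, inv_mul_cancel₀ hb'.ne']
    linarith
  linarith

theorem log_gap' {a b M : ℕ} (ha : 0 < a) (hb : 0 < b) (ha' : a ≤ M) (hb' : b ≤ M)
    (hab : a ≠ b) : 1 / (M : ℝ) ≤ |Real.log a - Real.log b| := by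
  rcases Nat.lt_or_gt_of_ne hab with h | h
  · have := log_gap ha hb' h
    rw [abs_sub_comm]
    exact this.trans (le_abs_self _)
  · have := log_gap hb ha' h
    exact this.trans (le_abs_self _)

/-- the frequencies are separated -/
theorem freq_gap {m z w : ℕ} (hw : 0 < w) (hw7 : 7 * m ≤ w) (hg : Nat.gcd z w ≤ 7)
    (q q' : Fin m × Fin m) (hq : q ≠ q') :
    1 / (w : ℝ) ≤ |((q.1 : ℕ) : ℝ) + ((q.2 : ℕ) : ℝ) * ((z : ℝ) / w) -
      (((q'.1 : ℕ) : ℝ) + ((q'.2 : ℕ) : ℝ) * ((z : ℝ) / w))| := by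
  have hw' : (0 : ℝ) < w := by exact_mod_cast hw
  set i : ℤ := ((q.1 : ℕ) : ℤ) - ((q'.1 : ℕ) : ℤ) with hi
  set j : ℤ := ((q.2 : ℕ) : ℤ) - ((q'.2 : ℕ) : ℤ) with hj
  have e1 : ((q.1 : ℕ) : ℝ) + ((q.2 : ℕ) : ℝ) * ((z : ℝ) / w) -
      (((q'.1 : ℕ) : ℝ) + ((q'.2 : ℕ) : ℝ) * ((z : ℝ) / w)) =
      (((w : ℤ) * i + (z : ℤ) * j : ℤ) : ℝ) / w := by
    rw [hi, hj]
    push_cast
    field_simp
    ring
  rw [e1, abs_div, abs_of_pos hw']
  refine div_le_div_of_nonneg_right ?_ hw'.le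
  have hne : (w : ℤ) * i + (z : ℤ) * j ≠ 0 := by
    intro h0
    obtain ⟨g, z1, w1, hg0, hcop, hz1, hw1⟩ := Nat.exists_coprime' (Nat.gcd_pos_of_pos_right z hw)
    have hgg : g ≤ 7 := by
      have h1 : Nat.gcd z w = g := by
        rw [hz1, hw1, Nat.gcd_mul_right, hcop.gcd_eq_one, one_mul]
      omega
    have hw1m : m ≤ w1 := by
      have h1 : 7 * m ≤ w1 * g := by rw [← hw1]; exact hw7
      have h2 : w1 * g ≤ w1 * 7 := Nat.mul_le_mul_left _ hgg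
      omega
    have hgz : (g : ℤ) ≠ 0 := by
      have : 0 < g := hg0
      exact_mod_cast this.ne'
    have h2 : (w1 : ℤ) * i + (z1 : ℤ) * j = 0 := by
      have h3 : (g : ℤ) * ((w1 : ℤ) * i + (z1 : ℤ) * j) = 0 := by
        rw [← h0, hz1, hw1]
        push_cast
        ring
      exact (mul_eq_zero.1 h3).resolve_left hgz
    have h4 : (w1 : ℤ) ∣ j := by
      have h5 : (w1 : ℤ) ∣ (z1 : ℤ) * j := ⟨-i, by linarith⟩
      have h6 : IsCoprime (w1 : ℤ) (z1 : ℤ) := (Nat.isCoprime_iff_coprime.2 hcop).symm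
      exact h6.dvd_of_dvd_mul_left h5
    have hjm : |j| < w1 := by
      have h7 := q.2.isLt
      have h8 := q'.2.isLt
      rw [hj, abs_lt]
      constructor <;> omega
    have hj0 : j = 0 := Int.eq_zero_of_abs_lt_dvd h4 hjm
    have hw10 : (w1 : ℤ) ≠ 0 := by
      intro h9
      rw [h9] at hjm
      exact absurd hjm (not_lt.2 (abs_nonneg j))
    have hi0 : i = 0 := by
      rw [hj0, mul_zero, add_zero] at h2
      exact (mul_eq_zero.1 h2).resolve_left hw10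
    apply hq
    refine Prod.ext (Fin.ext ?_) (Fin.ext ?_)
    · rw [hi] at hi0
      omega
    · rw [hj] at hj0
      omega
  rw [← Int.cast_abs]
  exact_mod_cast Int.one_le_abs hne

theorem sum_pairs (m : ℕ) : ∑ q : Fin m × Fin m, ((q.1 : ℕ) + (q.2 : ℕ)) = m * m * (m - 1) := by
  rw [Fintype.sum_prod_type]
  simp only [Finset.sum_add_distrib, Finset.sum_const, Finset.card_univ, Fintype.card_fin,
    smul_eq_mul]
  rw [← Finset.mul_sum, Fin.sum_univ_eq_sum_range (fun i => i) m]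
  have := Finset.sum_range_id_mul_two m
  calc m * ∑ i ∈ range m, i + m * ∑ i ∈ range m, i = m * ((∑ i ∈ range m, i) * 2) := by ring
    _ = m * m * (m - 1) := by rw [this, mul_assoc]

/-- one column of the matrix -/
theorem col {A W A0 z w m : ℕ} {Λ ε : ℝ} (hA : 0 < A) (hW : 0 < W) (hw : 0 < w)
    (hΛ : Λ = (z : ℝ) * Real.log A - w * Real.log W) (h0 : 0 ≤ Λ) (h1 : Λ ≤ ε)
    (q : Fin m × Fin m) :
    ∃ e : ℝ, |e| ≤ m * ε ∧ (A : ℝ) ^ (q.1 : ℕ) * (W : ℝ) ^ (q.2 : ℕ) =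
      Real.exp ((((q.1 : ℕ) : ℝ) + ((q.2 : ℕ) : ℝ) * ((z : ℝ) / w)) * Real.log A0) *
      (Real.exp ((((q.1 : ℕ) : ℝ) + ((q.2 : ℕ) : ℝ) * ((z : ℝ) / w)) *
        (Real.log A - Real.log A0)) * (1 + e)) := by
  have hw' : (1 : ℝ) ≤ w := by exact_mod_cast hw
  refine ⟨Real.exp (-(((q.2 : ℕ) : ℝ) * Λ / w)) - 1, ?_, ?_⟩
  · have h2 : 0 ≤ ((q.2 : ℕ) : ℝ) * Λ / w := by positivity
    have h3 := Real.add_one_le_exp (-(((q.2 : ℕ) : ℝ) * Λ / w))
    have h4 : Real.exp (-(((q.2 : ℕ) : ℝ) * Λ / w)) ≤ 1 := by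
      rw [Real.exp_le_one_iff]
      linarith
    have h5 : ((q.2 : ℕ) : ℝ) * Λ / w ≤ m * ε := by
      have h6 : ((q.2 : ℕ) : ℝ) ≤ m := by exact_mod_cast q.2.isLt.le
      calc ((q.2 : ℕ) : ℝ) * Λ / w ≤ ((q.2 : ℕ) : ℝ) * Λ := by
            apply div_le_self (by positivity) hw'
        _ ≤ m * ε := mul_le_mul h6 h1 h0 (by positivity)
    rw [abs_le]
    constructor <;> linarith
  · rw [entry hA hW hw (z := z) (q.1 : ℕ) (q.2 : ℕ), ← hΛ, add_sub_cancel, ← Real.exp_add,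
      ← Real.exp_add, ← Real.exp_add]
    congr 1
    ring

theorem R_le {A W z w m N f : ℕ} {ε : ℝ} (hf : 2 ≤ f) (hfN : f ≤ N) (h : Near f A W z w)
    (hw : 0 < w) (hΛ : (z : ℝ) * Real.log A - w * Real.log W ≤ ε)
    (hε : ε ≤ 1 / 2) (q : Fin m × Fin m) :
    Real.exp ((((q.1 : ℕ) : ℝ) + ((q.2 : ℕ) : ℝ) * ((z : ℝ) / w)) * Real.log A) ≤
      (4 * (N : ℝ) ^ 2) ^ ((q.1 : ℕ) + (q.2 : ℕ)) := by
  have hA0 : 0 < A := lt_of_lt_of_le (by omega) h.hA
  have hW0 : 0 < W := lt_of_lt_of_le (by omega) h.hW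
  have hw' : (1 : ℝ) ≤ w := by exact_mod_cast hw
  have hfN' : (f : ℝ) ≤ N := by exact_mod_cast hfN
  have hf2 : (f : ℝ) ^ 2 ≤ (N : ℝ) ^ 2 := pow_le_pow_left₀ (Nat.cast_nonneg _) hfN' 2
  have hA1 : (A : ℝ) ≤ (N : ℝ) ^ 2 := by
    have : (A : ℝ) ≤ (f : ℝ) ^ 2 := by exact_mod_cast h.hA'
    linarith
  have hW1 : (W : ℝ) ≤ 2 * (N : ℝ) ^ 2 := by
    have : (W : ℝ) ≤ 2 * (f : ℝ) ^ 2 := by exact_mod_cast h.hW'
    linarith
  have e0 := entry hA0 hW0 hw (z := z) (q.1 : ℕ) (q.2 : ℕ)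
  set Λ : ℝ := (z : ℝ) * Real.log A - w * Real.log W with hL
  have e1 : Real.exp ((((q.1 : ℕ) : ℝ) + ((q.2 : ℕ) : ℝ) * ((z : ℝ) / w)) * Real.log A) =
      (A : ℝ) ^ (q.1 : ℕ) * ((W : ℝ) * Real.exp (Λ / w)) ^ (q.2 : ℕ) := by
    rw [mul_pow, ← mul_assoc, e0, ← Real.exp_nat_mul, mul_assoc, ← Real.exp_add]
    have : -(((q.2 : ℕ) : ℝ) * Λ / w) + ((q.2 : ℕ) : ℝ) * (Λ / w) = 0 := by ring
    rw [this, Real.exp_zero, mul_one]
  rw [e1, pow_add]
  have e2 : Real.exp (Λ / w) ≤ 2 := by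
    have h1 : Λ / w ≤ 1 / 2 := by
      rw [div_le_iff₀ (by linarith)]
      nlinarith
    have h2 : Real.exp (Λ / w) ≤ Real.exp (1 / 2) := Real.exp_le_exp.2 h1
    have h3 : Real.exp (1 / 2) ≤ 2 := by
      have h4 := Real.add_one_le_exp (-(1 / 2 : ℝ))
      rw [Real.exp_neg] at h4
      have h5 : (0 : ℝ) < Real.exp (1 / 2) := Real.exp_pos _
      have h6 : (1 / 2 : ℝ) ≤ (Real.exp (1 / 2))⁻¹ := by linarith
      rw [le_inv_comm₀ (by norm_num) h5] at h6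
      linarith
    linarith
  refine mul_le_mul (pow_le_pow_left₀ (Nat.cast_nonneg _) (by linarith [hA1, sq_nonneg (N : ℝ)]) _)
    (pow_le_pow_left₀ (by positivity) ?_ _) (by positivity) (by positivity)
  calc (W : ℝ) * Real.exp (Λ / w) ≤ (2 * (N : ℝ) ^ 2) * 2 :=
        mul_le_mul hW1 e2 (Real.exp_pos _).le (by positivity)
    _ = 4 * (N : ℝ) ^ 2 := by ring

theorem arc (ube : UbeStmt) (per : PerStmt) (min : MinStmt) (inj : InjStmt) (gcd : GcdStmt)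
    (dis : DisStmt) : ArcStmt := by
  classical
  intro m θ hm hθ
  obtain ⟨D', hD'⟩ : ∃ D' : ℕ, m * m = D' + 1 :=
    ⟨m * m - 1, by have : 0 < m * m := by positivity
                   omega⟩
  obtain ⟨Z0, N0, hc⟩ := consts m θ hm hθ (D' + 1) hD'.symm
  refine ⟨Z0, N0, fun N w z hN hw E hE hlog => ?_⟩
  obtain ⟨hN2, hw8, hw7, hc1, hc2, hc3⟩ := hc N w hN hw
  by_contra hcon
  have hcard : 2 ^ (m ^ 2) < E.card := not_le.1 hcon
  have hw0 : 0 < w := by omega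
  have hw0r : (0 : ℝ) < w := by exact_mod_cast hw0
  have hw1r : (1 : ℝ) ≤ w := by exact_mod_cast hw0
  have hN0r : (0 : ℝ) < N := by
    have : 0 < N := by omega
    exact_mod_cast this
  have hN1r : (1 : ℝ) ≤ N := by
    have : 1 ≤ N := by omega
    exact_mod_cast this
  have hm2 : (2 : ℝ) ≤ m := by exact_mod_cast hm
  choose f hf using hE
  set ε : ℝ := (N : ℝ) ^ (-(7 / 50 : ℝ) * θ * w) with hε
  have hε0 : 0 < ε := Real.rpow_pos_of_pos hN0r _
  have hε2 : ε ≤ 1 / 2 := by nlinarith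
  -- data of an element
  have hA0 : ∀ p : {p // p ∈ E}, 0 < p.1.1 := fun p =>
    lt_of_lt_of_le (by have := (hf p.1 p.2).1; omega) (hf p.1 p.2).2.2.2.hA
  have hW0 : ∀ p : {p // p ∈ E}, 0 < p.1.2 := fun p =>
    lt_of_lt_of_le (by have := (hf p.1 p.2).1; omega) (hf p.1 p.2).2.2.2.hW
  have hΛ : ∀ p : {p // p ∈ E}, 0 ≤ (z : ℝ) * Real.log p.1.1 - w * Real.log p.1.2 ∧
      (z : ℝ) * Real.log p.1.1 - w * Real.log p.1.2 ≤ ε := by
    intro p
    obtain ⟨h1, h2⟩ := near_log (hf p.1 p.2).1 (hf p.1 p.2).2.2.2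
    refine ⟨h1, h2.trans ?_⟩
    have h3 := (hf p.1 p.2).2.1
    have h4 : (0 : ℝ) < (N : ℝ) ^ θ := Real.rpow_pos_of_pos hN0r _
    have h5 := Real.rpow_le_rpow_of_nonpos h4 h3
      (by nlinarith : -(7 / 50 : ℝ) * w ≤ 0)
    refine h5.trans (le_of_eq ?_)
    rw [← Real.rpow_mul hN0r.le, hε]
    congr 1
    ring
  have hAM : ∀ p : {p // p ∈ E}, p.1.1 ≤ N ^ 2 := fun p =>
    (hf p.1 p.2).2.2.2.hA'.trans (Nat.pow_le_pow_left (hf p.1 p.2).2.2.1 2)
  -- a base point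
  have hne : E.Nonempty := by
    rw [← Finset.card_pos]
    exact lt_of_le_of_lt (Nat.zero_le _) hcard
  obtain ⟨pp, hpp⟩ := hne
  let p0 : {p // p ∈ E} := ⟨pp, hpp⟩
  have hg : Nat.gcd z w ≤ 7 := gcd (f pp hpp) pp.1 pp.2 z w (hf pp hpp).1 hw0
    (hf pp hpp).2.2.2
  have hz3 : z ≤ 3 * w := (hf pp hpp).2.2.2.hz
  have hκ3 : (z : ℝ) / w ≤ 3 := by
    rw [div_le_iff₀ hw0r]
    exact_mod_cast hz3
  have hκ0 : 0 ≤ (z : ℝ) / w := by positivity
  -- frequencies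
  let ω0 : Fin m × Fin m → ℝ := fun q =>
    ((q.1 : ℕ) : ℝ) + ((q.2 : ℕ) : ℝ) * ((z : ℝ) / w)
  obtain ⟨σ, hσ⟩ := sortEmb ω0 (1 / w) (by positivity)
    (fun q q' hq => freq_gap hw0 hw7 hg q q' hq) (D' + 1) (by
      rw [Fintype.card_prod, Fintype.card_fin, hD'])
  have hσinj : Function.Injective σ := by
    intro i j hij
    by_contra hne'
    have hγ : (0 : ℝ) < 1 / w := by positivity
    rcases lt_or_gt_of_ne hne' with h | h
    · have := hσ i j h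
      rw [hij] at this
      linarith
    · have := hσ j i h
      rw [hij] at this
      linarith
  have hσbij : Function.Bijective σ := by
    rw [Fintype.bijective_iff_injective_and_card]
    refine ⟨hσinj, ?_⟩
    rw [Fintype.card_prod, Fintype.card_fin, Fintype.card_fin, hD']
  have hω0 : ∀ i, 0 ≤ ω0 (σ i) := fun i => by positivity
  have hω1 : ∀ i, ω0 (σ i) ≤ 4 * m := by
    intro i
    have h1 : (((σ i).1 : ℕ) : ℝ) ≤ m := by exact_mod_cast (σ i).1.isLt.le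
    have h2 : (((σ i).2 : ℕ) : ℝ) ≤ m := by exact_mod_cast (σ i).2.isLt.le
    have h3 : (((σ i).2 : ℕ) : ℝ) * ((z : ℝ) / w) ≤ m * 3 :=
      mul_le_mul h2 hκ3 hκ0 (by positivity)
    show (((σ i).1 : ℕ) : ℝ) + (((σ i).2 : ℕ) : ℝ) * ((z : ℝ) / w) ≤ 4 * m
    linarith
  -- the points
  let μ : {p // p ∈ E} → ℝ := fun p => Real.log p.1.1 - Real.log pp.1
  set η : ℝ := (N : ℝ) ^ (-(7 / m : ℝ)) with hη
  have hη0 : 0 < η := Real.rpow_pos_of_pos hN0r _
  have hη1 : η ≤ 1 := by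
    apply Real.rpow_le_one_of_one_le_of_nonpos hN1r
    have : (0 : ℝ) ≤ 7 / m := by positivity
    linarith
  have hμ : ∀ p, |μ p| ≤ η := fun p => hlog p.1 p.2 pp hpp
  let R : Fin (D' + 1) → ℝ := fun i => Real.exp (ω0 (σ i) * Real.log pp.1)
  have hR0 : ∀ i, 0 < R i := fun i => Real.exp_pos _
  let a : Fin (D' + 1) → {p // p ∈ E} → ℝ := fun i p =>
    (p.1.1 : ℝ) ^ ((σ i).1 : ℕ) * (p.1.2 : ℝ) ^ ((σ i).2 : ℕ)
  have hcol : ∀ i p, ∃ e : ℝ, |e| ≤ m * ε ∧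
      a i p = R i * (Real.exp (ω0 (σ i) * μ p) * (1 + e)) := by
    intro i p
    exact col (hA0 p) (hW0 p) hw0 rfl (hΛ p).1 (hΛ p).2 (σ i)
  choose e he hae using hcol
  have hδ0 : 0 ≤ (m : ℝ) * ε := by positivity
  have hprod : ∏ i, R i ≤ (4 * (N : ℝ) ^ 2) ^ (m * m * (m - 1)) := by
    calc ∏ i, R i ≤ ∏ i, (4 * (N : ℝ) ^ 2) ^ (((σ i).1 : ℕ) + ((σ i).2 : ℕ)) :=
          Finset.prod_le_prod (fun i _ => (hR0 i).le) fun i _ =>
            R_le (hf pp hpp).1 (hf pp hpp).2.2.1 (hf pp hpp).2.2.2 hw0 (hΛ p0).2 hε2 (σ i)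
      _ = (4 * (N : ℝ) ^ 2) ^ (∑ i, (((σ i).1 : ℕ) + ((σ i).2 : ℕ))) :=
          Finset.prod_pow_eq_pow_sum _ _ _
      _ = _ := by
          congr 1
          rw [← sum_pairs m]
          exact Function.Bijective.sum_comp hσbij (fun q => (q.1 : ℕ) + (q.2 : ℕ))
  -- minors vanish
  have hminor : ∀ e' : Fin (D' + 1) → {p // p ∈ E},
      Matrix.det (Matrix.of fun i i' : Fin (D' + 1) => a i (e' i')) = 0 := by
    intro e'
    have h1 : Matrix.det (Matrix.of fun i i' : Fin (D' + 1) => a i (e' i')) =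
        (∏ i, R i) * Matrix.det (Matrix.of fun i i' : Fin (D' + 1) =>
          Real.exp (ω0 (σ i) * μ (e' i')) * (1 + e i (e' i'))) := by
      rw [← Matrix.det_mul_column]
      congr 1
      ext i i'
      exact hae i (e' i')
    have h2 := minor_small ube per (D' + 1) (fun i => ω0 (σ i)) (fun i' => μ (e' i'))
      (fun i i' => e i (e' i')) η (m * ε) (4 * m) hη0 hη1 hδ0 hc1 hω0 hω1
      (fun i' => hμ (e' i')) (fun i i' => he i (e' i'))
    have h3 : |Matrix.det (Matrix.of fun i i' : Fin (D' + 1) => a i (e' i'))| < 1 := by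
      rw [h1, abs_mul, abs_of_pos (Finset.prod_pos fun i _ => hR0 i)]
      refine lt_of_le_of_lt ?_ hc2
      exact mul_le_mul hprod h2 (abs_nonneg _) (by positivity)
    have h4 : Matrix.det (Matrix.of fun i i' : Fin (D' + 1) => a i (e' i')) =
        ((Matrix.det (Matrix.of fun i i' : Fin (D' + 1) =>
          ((((e' i').1.1 : ℤ)) ^ ((σ i).1 : ℕ) * (((e' i').1.2 : ℤ)) ^ ((σ i).2 : ℕ))) : ℤ) : ℝ) := by
      have h5 := (Int.castRingHom ℝ).map_det (Matrix.of fun i i' : Fin (D' + 1) =>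
          ((((e' i').1.1 : ℤ)) ^ ((σ i).1 : ℕ) * (((e' i').1.2 : ℤ)) ^ ((σ i).2 : ℕ)))
      rw [eq_intCast] at h5
      rw [h5]
      congr 1
      ext i i'
      simp [a, RingHom.mapMatrix_apply, Matrix.map_apply]
    rw [h4] at h3 ⊢
    rw [← Int.cast_abs] at h3
    have h6 : |(Matrix.det (Matrix.of fun i i' : Fin (D' + 1) =>
          ((((e' i').1.1 : ℤ)) ^ ((σ i).1 : ℕ) * (((e' i').1.2 : ℤ)) ^ ((σ i).2 : ℕ))) : ℤ)| < 1 := by
      exact_mod_cast h3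
    rw [Int.abs_lt_one_iff.1 h6, Int.cast_zero]
  -- a relation
  have hrel : ∃ c : Fin (D' + 1) → ℝ, (∀ p, ∑ i, c i * a i p = 0) ∧ c ≠ 0 := by
    by_contra hno
    push Not at hno
    obtain ⟨e', he'⟩ := min (Fin (D' + 1)) {p // p ∈ E} a hno
    exact he' (hminor e')
  obtain ⟨c, hc0, hcne⟩ := hrel
  obtain ⟨i0, -, hi0⟩ := Finset.exists_max_image (univ : Finset (Fin (D' + 1)))
    (fun i => |c i * R i|) ⟨0, mem_univ _⟩
  have hpos : 0 < |c i0 * R i0| := by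
    obtain ⟨i1, hi1⟩ := Function.ne_iff.1 hcne
    have h1 : 0 < |c i1 * R i1| := abs_pos.2 (mul_ne_zero hi1 (hR0 i1).ne')
    exact h1.trans_le (hi0 i1 (mem_univ _))
  let d : Fin (D' + 1) → ℝ := fun i => c i * R i / |c i0 * R i0|
  have hd1 : ∀ i, |d i| ≤ 1 := by
    intro i
    show abs (c i * R i / |c i0 * R i0|) ≤ 1
    rw [abs_div, abs_abs, div_le_one hpos]
    exact hi0 i (mem_univ _)
  have hd0 : |d i0| = 1 := by
    show abs (c i0 * R i0 / |c i0 * R i0|) = 1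
    rw [abs_div, abs_abs, div_self hpos.ne']
  have hsmall : ∀ p, |∑ i, d i * Real.exp (ω0 (σ i) * μ p)| ≤
      ((D' + 1 : ℕ) : ℝ) * Real.exp (4 * m) * (m * ε) := by
    intro p
    have h1 : ∑ i, d i * Real.exp (ω0 (σ i) * μ p) =
        -∑ i, d i * Real.exp (ω0 (σ i) * μ p) * e i p := by
      rw [eq_neg_iff_add_eq_zero, ← Finset.sum_add_distrib]
      have h2 : ∑ i, (d i * Real.exp (ω0 (σ i) * μ p) +
          d i * Real.exp (ω0 (σ i) * μ p) * e i p) =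
          (∑ i, c i * a i p) / |c i0 * R i0| := by
        rw [Finset.sum_div]
        refine Finset.sum_congr rfl fun i _ => ?_
        rw [hae i p]
        show c i * R i / |c i0 * R i0| * Real.exp (ω0 (σ i) * μ p) +
          c i * R i / |c i0 * R i0| * Real.exp (ω0 (σ i) * μ p) * e i p = _
        ring
      rw [h2, hc0 p, zero_div]
    rw [h1, abs_neg]
    refine (Finset.abs_sum_le_sum_abs _ _).trans ?_
    have h3 : ∀ i ∈ (univ : Finset (Fin (D' + 1))),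
        |d i * Real.exp (ω0 (σ i) * μ p) * e i p| ≤ Real.exp (4 * m) * (m * ε) := by
      intro i _
      rw [abs_mul, abs_mul, abs_of_pos (Real.exp_pos (ω0 (σ i) * μ p))]
      have h4 : Real.exp (ω0 (σ i) * μ p) ≤ Real.exp (4 * m) := by
        apply Real.exp_le_exp.2
        have h5 : ω0 (σ i) * μ p ≤ |ω0 (σ i) * μ p| := le_abs_self _
        rw [abs_mul, abs_of_nonneg (hω0 i)] at h5
        have h6 : ω0 (σ i) * |μ p| ≤ ω0 (σ i) * 1 :=
          mul_le_mul_of_nonneg_left ((hμ p).trans hη1) (hω0 i)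
        linarith [hω1 i]
      have h7 : |d i| * Real.exp (ω0 (σ i) * μ p) ≤ Real.exp (4 * m) := by
        have h8 := mul_le_mul (hd1 i) h4 (Real.exp_pos _).le zero_le_one
        linarith
      exact mul_le_mul h7 (he i p) (abs_nonneg _) (Real.exp_pos _).le
    refine (Finset.sum_le_sum h3).trans (le_of_eq ?_)
    rw [Finset.sum_const, Finset.card_univ, Fintype.card_fin, nsmul_eq_mul]
    ring
  -- separated points
  have hM0 : 0 < N ^ 2 := by positivity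
  obtain ⟨τ, hτ⟩ := sortEmb μ (1 / ((N ^ 2 : ℕ) : ℝ)) (by positivity) (by
    intro p q hpq
    have h1 : p.1.1 ≠ q.1.1 := by
      intro h2
      apply hpq
      apply Subtype.ext
      refine Prod.ext h2 ?_
      have h3 := (hf q.1 q.2).2.2.2
      rw [← h2] at h3
      exact dis (f p.1 p.2) (f q.1 q.2) p.1.1 p.1.2 q.1.2 z w (hf p.1 p.2).1 (hf q.1 q.2).1 hw8
        (hf p.1 p.2).2.2.2 h3
    have h4 := log_gap' (hA0 p) (hA0 q) (hAM p) (hAM q) h1
    have h5 : μ p - μ q = Real.log p.1.1 - Real.log q.1.1 := by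
      show Real.log p.1.1 - Real.log pp.1 - (Real.log q.1.1 - Real.log pp.1) = _
      ring
    rw [h5]
    exact h4) (2 ^ D') (by
    rw [Fintype.card_coe]
    have h1 : 2 ^ D' ≤ 2 ^ (m ^ 2) := Nat.pow_le_pow_right (by norm_num) (by
      rw [sq, hD']
      omega)
    omega)
  have hcast : ((N ^ 2 : ℕ) : ℝ) = (N : ℝ) ^ 2 := by push_cast; rfl
  rw [hcast] at hτ
  have hfin := inj D' (fun i => ω0 (σ i)) d (fun k => μ (τ k)) (1 / w) (1 / (N : ℝ) ^ 2)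
    (((D' + 1 : ℕ) : ℝ) * Real.exp (4 * m) * (m * ε)) (4 * m) (by positivity)
    (by rw [div_le_one hw0r]; exact hw1r) (by positivity)
    (by rw [div_le_one (by positivity)]; exact one_le_pow₀ hN1r) (by positivity) (by positivity)
    hσ (fun i => ⟨hω0 i, hω1 i⟩) (fun k => (hμ _).trans hη1) hτ (fun k => hsmall _) i0
  rw [hd0] at hfin
  push_cast at hfin hc3
  linarith

end Pool.Agent.MNE.H94
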