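import Pool.Agent.MNE.StmtsB

/-! Squad MNE, row ARC, part 1: preparations (helper94). -/

set_option autoImplicit false

namespace Pool.Agent.MNE.H94

open Finset

theorem sortEmb {ι : Type} [Fintype ι] (ω : ι → ℝ) (γ : ℝ) (hγ : 0 < γ)
    (h : ∀ i j, i ≠ j → γ ≤ |ω i - ω j|) (K : ℕ) (hK : K ≤ Fintype.card ι) :
    ∃ σ : Fin K → ι, ∀ i j, i < j → ω (σ i) + γ ≤ ω (σ j) := by
  classical
  have hinj : Function.Injective ω := by
    intro i j hij
    by_contra hne
    have := h i j hne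
    rw [hij, sub_self, abs_zero] at this
    linarith
  obtain ⟨s', hs', hc⟩ := Finset.exists_subset_card_eq (s := univ.image ω) (n := K) (by
    rw [card_image_of_injective _ hinj]
    exact hK)
  have hp : ∀ k : Fin K, ∃ i, ω i = s'.orderEmbOfFin hc k := by
    intro k
    have := hs' (s'.orderEmbOfFin_mem hc k)
    obtain ⟨i, -, hi⟩ := mem_image.1 this
    exact ⟨i, hi⟩
  choose σ hσ using hp
  refine ⟨σ, fun i j hij => ?_⟩
  have h1 : ω (σ i) < ω (σ j) := by
    rw [hσ, hσ]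
    exact (s'.orderEmbOfFin hc).strictMono hij
  have h2 : σ i ≠ σ j := fun h => by
    rw [h] at h1
    exact lt_irrefl _ h1
  have h3 := h (σ i) (σ j) h2
  rw [abs_sub_comm, abs_of_pos (by linarith)] at h3
  linarith

theorem near_log {f A W z w : ℕ} (hf : 2 ≤ f) (h : Near f A W z w) :
    0 ≤ (z : ℝ) * Real.log A - w * Real.log W ∧
    (z : ℝ) * Real.log A - w * Real.log W ≤ (f : ℝ) ^ (-(7 / 50 : ℝ) * w) := by
  have hW0 : 0 < W := lt_of_lt_of_le (by omega) h.hW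
  have hA0 : 0 < A := lt_of_lt_of_le (by omega) h.hA
  have hf0 : (0 : ℝ) < f := by
    have : 0 < f := by omega
    exact_mod_cast this
  have hP : 0 < W ^ w := pow_pos hW0 w
  have hPr : (0 : ℝ) < (W : ℝ) ^ w := by exact_mod_cast hP
  have hQr : (0 : ℝ) < (A : ℝ) ^ z := by
    have : 0 < A ^ z := pow_pos hA0 z
    exact_mod_cast this
  have hlt : (W : ℝ) ^ w < (A : ℝ) ^ z := by exact_mod_cast h.lt
  have e1 : (z : ℝ) * Real.log A - w * Real.log W =
      Real.log ((A : ℝ) ^ z / (W : ℝ) ^ w) := by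
    rw [Real.log_div hQr.ne' hPr.ne', Real.log_pow, Real.log_pow]
  rw [e1]
  constructor
  · apply Real.log_nonneg
    rw [le_div_iff₀ hPr, one_mul]
    exact hlt.le
  · have e2 := Real.log_le_sub_one_of_pos (div_pos hQr hPr)
    refine e2.trans ?_
    have e3 : (((A ^ z - W ^ w : ℕ) : ℝ)) ^ 50 ≤ ((W : ℝ) ^ w) ^ 43 := by
      have := h.le
      exact_mod_cast this
    have e4 : ((A ^ z - W ^ w : ℕ) : ℝ) = (A : ℝ) ^ z - (W : ℝ) ^ w := by
      rw [Nat.cast_sub h.lt.le]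
      push_cast
      rfl
    have hS : (0 : ℝ) ≤ (A : ℝ) ^ z - (W : ℝ) ^ w := by linarith
    rw [e4] at e3
    have e5 : (A : ℝ) ^ z - (W : ℝ) ^ w ≤ ((W : ℝ) ^ w) ^ (43 / 50 : ℝ) := by
      have h1 := Real.rpow_le_rpow (by positivity) e3 (by norm_num : (0 : ℝ) ≤ 1 / 50)
      rw [← Real.rpow_natCast, ← Real.rpow_mul hS, ← Real.rpow_natCast _ 43,
        ← Real.rpow_mul hPr.le] at h1
      norm_num at h1
      linarith
    have e6 : (A : ℝ) ^ z / (W : ℝ) ^ w - 1 = ((A : ℝ) ^ z - (W : ℝ) ^ w) / (W : ℝ) ^ w := by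
      field_simp
    rw [e6]
    have e7 : ((W : ℝ) ^ w) ^ (43 / 50 : ℝ) / (W : ℝ) ^ w = ((W : ℝ) ^ w) ^ (-(7 / 50) : ℝ) := by
      have : (-(7 / 50) : ℝ) = 43 / 50 - 1 := by norm_num
      rw [this, Real.rpow_sub_one hPr.ne']
    have e8 : ((A : ℝ) ^ z - (W : ℝ) ^ w) / (W : ℝ) ^ w ≤ ((W : ℝ) ^ w) ^ (-(7 / 50) : ℝ) := by
      rw [← e7]
      exact div_le_div_of_nonneg_right e5 hPr.le
    refine e8.trans ?_
    have e9 : (f : ℝ) ^ w ≤ (W : ℝ) ^ w := by
      have : (f : ℝ) ≤ W := by exact_mod_cast h.hW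
      exact pow_le_pow_left₀ hf0.le this w
    have e10 := Real.rpow_le_rpow_of_nonpos (pow_pos hf0 w) e9
      (by norm_num : (-(7 / 50) : ℝ) ≤ 0)
    refine e10.trans (le_of_eq ?_)
    rw [← Real.rpow_natCast, ← Real.rpow_mul hf0.le]
    congr 1
    ring

theorem entry {A W z w : ℕ} (hA : 0 < A) (hW : 0 < W) (hw : 0 < w) (i j : ℕ) :
    (A : ℝ) ^ i * (W : ℝ) ^ j = Real.exp ((i + j * ((z : ℝ) / w)) * Real.log A) *
      Real.exp (-(j * ((z : ℝ) * Real.log A - w * Real.log W) / w)) := by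
  have hw' : (w : ℝ) ≠ 0 := by
    have : (0 : ℝ) < w := by exact_mod_cast hw
    exact this.ne'
  have hA' : (0 : ℝ) < A := by exact_mod_cast hA
  have hW' : (0 : ℝ) < W := by exact_mod_cast hW
  rw [← Real.exp_add]
  have : ((i : ℝ) + j * ((z : ℝ) / w)) * Real.log A +
      -(j * ((z : ℝ) * Real.log A - w * Real.log W) / w) =
      i * Real.log A + j * Real.log W := by
    field_simp
    ring
  rw [this, Real.exp_add, ← Real.log_pow, ← Real.log_pow, Real.exp_log (pow_pos hA' i),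
    Real.exp_log (pow_pos hW' j)]

/-- the determinant of the perturbed exponential matrix -/
theorem minor_small (ube : UbeStmt) (per : PerStmt) (D : ℕ) (ω x : Fin D → ℝ)
    (e : Fin D → Fin D → ℝ) (η δ Ω : ℝ) (hη : 0 < η) (hη1 : η ≤ 1) (hδ : 0 ≤ δ) (hδ1 : δ ≤ 1)
    (hω0 : ∀ i, 0 ≤ ω i) (hω1 : ∀ i, ω i ≤ Ω) (hx : ∀ j, |x j| ≤ η) (he : ∀ i j, |e i j| ≤ δ) :
    |Matrix.det (Matrix.of fun i j : Fin D => Real.exp (ω i * x j) * (1 + e i j))| ≤
      (Nat.factorial D : ℝ) * Real.exp Ω ^ D * (η ^ (D * (D - 1) / 2) + 2 ^ D * δ) := by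
  have h1 := ube D (fun _ => 0) ω x η (1 / η) hη.le (by
    rw [le_div_iff₀ hη, one_mul]
    exact hη1) hω0 hx
  have e1 : 1 / η * η = 1 := by field_simp
  simp only [pow_zero, one_mul, e1, mul_one] at h1
  have h2 : ∏ i : Fin D, Real.exp (ω i) ≤ Real.exp Ω ^ D := by
    have h3 : ∏ i : Fin D, Real.exp (ω i) ≤ ∏ _i : Fin D, Real.exp Ω :=
      Finset.prod_le_prod (fun i _ => (Real.exp_pos _).le) fun i _ => Real.exp_le_exp.2 (hω1 i)
    rw [Finset.prod_const, Finset.card_univ, Fintype.card_fin] at h3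
    exact h3
  have hfac : (0 : ℝ) ≤ (Nat.factorial D : ℝ) := Nat.cast_nonneg _
  have h4 : |Matrix.det (Matrix.of fun i j : Fin D => Real.exp (ω i * x j))| ≤
      (Nat.factorial D : ℝ) * Real.exp Ω ^ D * η ^ (D * (D - 1) / 2) := by
    have h5 := h1.trans (mul_le_mul_of_nonneg_left h2 hfac)
    have h6 : (1 / η) ^ (D * (D - 1) / 2) * η ^ (D * (D - 1) / 2) = 1 := by
      rw [← mul_pow, e1, one_pow]
    have h7 := mul_le_mul_of_nonneg_right h5 (pow_pos hη (D * (D - 1) / 2)).le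
    calc |Matrix.det (Matrix.of fun i j : Fin D => Real.exp (ω i * x j))|
        = (1 / η) ^ (D * (D - 1) / 2) * |Matrix.det (Matrix.of fun i j : Fin D =>
            Real.exp (ω i * x j))| * η ^ (D * (D - 1) / 2) := by
          rw [mul_right_comm, h6, one_mul]
      _ ≤ _ := h7
  have hΩ : ∀ i j, |Real.exp (ω i * x j)| ≤ Real.exp Ω := by
    intro i j
    rw [abs_of_pos (Real.exp_pos _)]
    apply Real.exp_le_exp.2
    have h8 : ω i * x j ≤ |ω i * x j| := le_abs_self _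
    rw [abs_mul, abs_of_nonneg (hω0 i)] at h8
    have h9 : |x j| ≤ 1 := (hx j).trans hη1
    have h10 : ω i * |x j| ≤ ω i * 1 := mul_le_mul_of_nonneg_left h9 (hω0 i)
    linarith [hω1 i]
  have h11 := per D (fun i j => Real.exp (ω i * x j)) e (fun _ => Real.exp Ω) δ hδ hδ1 hΩ he
  rw [Finset.prod_const, Finset.card_univ, Fintype.card_fin] at h11
  have h12 := abs_sub_abs_le_abs_sub (Matrix.det (Matrix.of fun i j : Fin D =>
    Real.exp (ω i * x j) * (1 + e i j))) (Matrix.det (Matrix.of fun i j : Fin D =>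
    Real.exp (ω i * x j)))
  have h13 : Matrix.det (Matrix.of fun i j : Fin D => Real.exp (ω i * x j)) =
    Matrix.det (Matrix.of (fun i j : Fin D => Real.exp (ω i * x j))) := rfl
  calc |Matrix.det (Matrix.of fun i j : Fin D => Real.exp (ω i * x j) * (1 + e i j))|
      ≤ |Matrix.det (Matrix.of fun i j : Fin D => Real.exp (ω i * x j))| +
        (Nat.factorial D : ℝ) * (Real.exp Ω ^ D) * 2 ^ D * δ := by linarith
    _ ≤ _ := by
        rw [mul_add]
        have : (Nat.factorial D : ℝ) * (Real.exp Ω ^ D) * 2 ^ D * δ =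
          (Nat.factorial D : ℝ) * Real.exp Ω ^ D * (2 ^ D * δ) := by ring
        linarith

end Pool.Agent.MNE.H94
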