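import Pool.Agent.Helper94_MNE.ARC1

/-! Squad MNE, row ARC, part 2: the constants (helper94). -/

set_option autoImplicit false

namespace Pool.Agent.MNE.H94

open Finset

/-- `w ^ D ≤ 2 ^ (b w)` for large `w` -/
theorem pow_le_two (D : ℕ) (b : ℝ) (hb : 0 < b) : ∃ Z : ℕ, ∀ w : ℕ, Z ≤ w →
    (w : ℝ) ^ D ≤ (2 : ℝ) ^ (b * w) := by
  have h0 : 0 < b * Real.log 2 := mul_pos hb (Real.log_pos (by norm_num))
  have h1 := isLittleO_pow_exp_pos_mul_atTop (k := D) h0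
  have h2 := h1.bound (by norm_num : (0 : ℝ) < 1)
  rw [Filter.eventually_atTop] at h2
  obtain ⟨X, hX⟩ := h2
  refine ⟨⌈X⌉₊, fun w hw => ?_⟩
  have h3 : X ≤ w := (Nat.le_ceil X).trans (by exact_mod_cast hw)
  have h4 := hX w h3
  rw [one_mul, Real.norm_of_nonneg (by positivity), Real.norm_of_nonneg (Real.exp_pos _).le] at h4
  refine h4.trans (le_of_eq ?_)
  rw [Real.rpow_def_of_pos (by norm_num)]
  congr 1
  ring

theorem consts (m : ℕ) (θ : ℝ) (hm : 2 ≤ m) (hθ : 0 < θ) (D : ℕ) (hD : D = m * m) :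
    ∃ Z0 N0 : ℕ, ∀ N w : ℕ, N0 ≤ N → Z0 ≤ w → 2 ≤ N ∧ 8 ≤ w ∧ 7 * m ≤ w ∧
      (m : ℝ) * (N : ℝ) ^ (-(7 / 50 : ℝ) * θ * w) ≤ 1 ∧
      (4 * (N : ℝ) ^ 2) ^ (m * m * (m - 1)) * ((Nat.factorial D : ℝ) * Real.exp (4 * m) ^ D *
        (((N : ℝ) ^ (-(7 / m : ℝ))) ^ (D * (D - 1) / 2) +
          2 ^ D * ((m : ℝ) * (N : ℝ) ^ (-(7 / 50 : ℝ) * θ * w)))) < 1 ∧
      (D : ℝ) * Real.exp (4 * m) * ((m : ℝ) * (N : ℝ) ^ (-(7 / 50 : ℝ) * θ * w)) *
        (2 * D * Real.exp (2 * (4 * m)) / ((1 / (w : ℝ)) * (1 / (N : ℝ) ^ 2))) ^ D < 1 := by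
  set β : ℝ := 7 / 50 * θ with hβ
  have hβ0 : 0 < β := by positivity
  obtain ⟨Z1, hZ1⟩ := pow_le_two D (β / 2) (by positivity)
  set K1 : ℝ := (4 : ℝ) ^ (m * m * (m - 1)) * ((Nat.factorial D : ℝ) * Real.exp (4 * m) ^ D)
    with hK1
  set K2 : ℝ := K1 * (2 ^ D * m) with hK2
  set K3 : ℝ := (D : ℝ) * Real.exp (4 * m) * m * (2 * D * Real.exp (2 * (4 * m))) ^ D with hK3
  have hK1p : 0 < K1 := by positivity
  have hm0 : (0 : ℝ) < m := by
    have : 0 < m := by omega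
    exact_mod_cast this
  have hm2 : (2 : ℝ) ≤ m := by exact_mod_cast hm
  have hD0 : 0 < D := by
    rw [hD]
    positivity
  have hDr : (D : ℝ) = m * m := by
    rw [hD]
    push_cast
    rfl
  have hD0r : (0 : ℝ) < D := by exact_mod_cast hD0
  have hK2p : 0 < K2 := by positivity
  have hK3p : 0 < K3 := by positivity
  -- thresholds
  set Y : ℝ := (2 * (m * m * (m - 1)) + 2 * D + 1) / (β / 2) + 1 / β with hY
  refine ⟨max (max Z1 ⌈Y⌉₊) (7 * m + 8), ⌈2 * K1 + 2 * K2 + K3 + m⌉₊ + 2,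
    fun N w hN hw => ?_⟩
  have hw1 : Z1 ≤ w := (le_max_left _ _).trans ((le_max_left _ _).trans hw)
  have hw2 : Y ≤ w := (Nat.le_ceil Y).trans (by
    exact_mod_cast (le_max_right _ _).trans ((le_max_left _ _).trans hw))
  have hw3 : 7 * m + 8 ≤ w := (le_max_right _ _).trans hw
  have hN2 : 2 ≤ N := by omega
  have hNK : 2 * K1 + 2 * K2 + K3 + m < N := by
    have h1 := Nat.le_ceil (2 * K1 + 2 * K2 + K3 + m)
    have h2 : ((⌈2 * K1 + 2 * K2 + K3 + m⌉₊ + 2 : ℕ) : ℝ) ≤ N := by exact_mod_cast hN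
    push_cast at h2
    linarith
  have hN0 : (0 : ℝ) < N := by
    have : 0 < N := by omega
    exact_mod_cast this
  have hN1 : (1 : ℝ) ≤ N := by
    have : 1 ≤ N := by omega
    exact_mod_cast this
  have hN2r : (2 : ℝ) ≤ N := by exact_mod_cast hN2
  have hw0 : (0 : ℝ) < w := by
    have : 0 < w := by omega
    exact_mod_cast this
  have hβw : (2 * (m * m * (m - 1)) + 2 * D + 1 : ℝ) ≤ β / 2 * w := by
    have h1 : (2 * (m * m * (m - 1)) + 2 * D + 1 : ℝ) / (β / 2) ≤ w := by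
      have : (0 : ℝ) < 1 / β := by positivity
      linarith
    rw [div_le_iff₀ (by positivity)] at h1
    linarith
  have hmm : (0 : ℝ) ≤ m * m * (m - 1) := by
    have : (0 : ℝ) ≤ (m : ℝ) - 1 := by linarith
    positivity
  have hexp : -(7 / 50 : ℝ) * θ * w = -(β * w) := by
    rw [hβ]
    ring
  have hcast : (((m - 1 : ℕ) : ℝ)) = (m : ℝ) - 1 := by
    rw [Nat.cast_sub (by omega)]
    norm_num
  rw [hexp]
  have hinv : (N : ℝ) ^ (-1 : ℝ) = 1 / N := by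
    rw [Real.rpow_neg_one, one_div]
  -- powers of `N`
  have p1 : ∀ a : ℝ, a ≤ -1 → (N : ℝ) ^ a ≤ 1 / N := by
    intro a ha
    rw [← hinv]
    exact Real.rpow_le_rpow_of_exponent_le hN1 ha
  have hq : ∀ K : ℝ, 0 ≤ K → K < N → K * (1 / N) < 1 := by
    intro K _ h
    rw [mul_one_div, div_lt_one hN0]
    exact h
  have hN4 : (4 * (N : ℝ) ^ 2) ^ (m * m * (m - 1)) =
      (4 : ℝ) ^ (m * m * (m - 1)) * (N : ℝ) ^ (2 * (m * m * (m - 1)) : ℝ) := by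
    rw [mul_pow, ← pow_mul, ← Real.rpow_natCast (N : ℝ) (2 * (m * m * (m - 1)))]
    congr 2
    push_cast
    rw [hcast]
  refine ⟨hN2, by omega, by omega, ?_, ?_, ?_⟩
  · have h1 : (N : ℝ) ^ (-(β * w)) ≤ 1 / N := p1 _ (by nlinarith)
    have h2 := hq m hm0.le (by linarith)
    calc (m : ℝ) * (N : ℝ) ^ (-(β * w)) ≤ m * (1 / N) := mul_le_mul_of_nonneg_left h1 hm0.le
      _ ≤ 1 := h2.le
  · have hη : ((N : ℝ) ^ (-(7 / m : ℝ))) ^ (D * (D - 1) / 2) =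
        (N : ℝ) ^ (-(7 / 2 * m * (m * m - 1)) : ℝ) := by
      rw [← Real.rpow_natCast, ← Real.rpow_mul hN0.le]
      congr 1
      have h1 : ((D * (D - 1) / 2 : ℕ) : ℝ) = (D : ℝ) * (D - 1) / 2 := by
        rw [Nat.cast_div (Nat.even_mul_pred_self D).two_dvd (by norm_num), Nat.cast_mul,
          Nat.cast_sub (by omega)]
        norm_num
      rw [h1, hDr]
      field_simp
    rw [hη, hN4]
    have e1 : (4 : ℝ) ^ (m * m * (m - 1)) * (N : ℝ) ^ (2 * (m * m * (m - 1)) : ℝ) *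
        ((Nat.factorial D : ℝ) * Real.exp (4 * m) ^ D *
          ((N : ℝ) ^ (-(7 / 2 * m * (m * m - 1)) : ℝ) +
            2 ^ D * ((m : ℝ) * (N : ℝ) ^ (-(β * w))))) =
        K1 * ((N : ℝ) ^ (2 * (m * m * (m - 1)) : ℝ) *
          (N : ℝ) ^ (-(7 / 2 * m * (m * m - 1)) : ℝ)) +
        K2 * ((N : ℝ) ^ (2 * (m * m * (m - 1)) : ℝ) * (N : ℝ) ^ (-(β * w))) := by
      rw [hK2, hK1]
      ring
    rw [e1, ← Real.rpow_add hN0, ← Real.rpow_add hN0]
    have e2 : (N : ℝ) ^ (2 * (m * m * (m - 1)) + -(7 / 2 * m * (m * m - 1)) : ℝ) ≤ 1 / N := by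
      apply p1
      have h1 : (2 * (m * m * (m - 1)) + -(7 / 2 * m * (m * m - 1)) : ℝ) =
          -(m * (m - 1) * (3 / 2 * m + 7 / 2)) := by ring
      rw [h1]
      have h2 : (1 : ℝ) ≤ m * (m - 1) * (3 / 2 * m + 7 / 2) := by
        have h3 : (2 : ℝ) ≤ m * (m - 1) := by nlinarith
        nlinarith
      linarith
    have e3 : (N : ℝ) ^ (2 * (m * m * (m - 1)) + -(β * w) : ℝ) ≤ 1 / N := by
      apply p1
      nlinarith
    have e4 : K1 * (1 / N) < 1 / 2 := by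
      have := hq (2 * K1) (by positivity) (by linarith)
      linarith
    have e5 : K2 * (1 / N) < 1 / 2 := by
      have := hq (2 * K2) (by positivity) (by linarith)
      linarith
    have e6 := mul_le_mul_of_nonneg_left e2 hK1p.le
    have e7 := mul_le_mul_of_nonneg_left e3 hK2p.le
    linarith
  · have e0 : 2 * (D : ℝ) * Real.exp (2 * (4 * m)) / ((1 / (w : ℝ)) * (1 / (N : ℝ) ^ 2)) =
        (2 * D * Real.exp (2 * (4 * m))) * (w * (N : ℝ) ^ 2) := by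
      field_simp
    rw [e0, mul_pow, mul_pow (w : ℝ)]
    have e1 : (D : ℝ) * Real.exp (4 * m) * ((m : ℝ) * (N : ℝ) ^ (-(β * w))) *
        ((2 * D * Real.exp (2 * (4 * m))) ^ D * ((w : ℝ) ^ D * ((N : ℝ) ^ 2) ^ D)) =
        K3 * ((w : ℝ) ^ D * (((N : ℝ) ^ 2) ^ D * (N : ℝ) ^ (-(β * w)))) := by
      rw [hK3]
      ring
    rw [e1]
    have e2 : ((N : ℝ) ^ 2) ^ D = (N : ℝ) ^ (2 * D : ℝ) := by
      rw [← pow_mul, ← Real.rpow_natCast]
      congr 1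
      push_cast
      rfl
    have e3 : (w : ℝ) ^ D ≤ (N : ℝ) ^ (β / 2 * w) := by
      refine (hZ1 w hw1).trans ?_
      exact Real.rpow_le_rpow (by norm_num) hN2r (by positivity)
    rw [e2, ← Real.rpow_add hN0]
    have e4 : (w : ℝ) ^ D * (N : ℝ) ^ (2 * D + -(β * w) : ℝ) ≤ 1 / N := by
      calc (w : ℝ) ^ D * (N : ℝ) ^ (2 * D + -(β * w) : ℝ)
          ≤ (N : ℝ) ^ (β / 2 * w) * (N : ℝ) ^ (2 * D + -(β * w) : ℝ) :=
            mul_le_mul_of_nonneg_right e3 (Real.rpow_pos_of_pos hN0 _).le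
        _ = (N : ℝ) ^ (β / 2 * w + (2 * D + -(β * w)) : ℝ) := (Real.rpow_add hN0 _ _).symm
        _ ≤ 1 / N := p1 _ (by nlinarith)
    have e5 := mul_le_mul_of_nonneg_left e4 hK3p.le
    have e6 := hq K3 hK3p.le (by linarith)
    linarith

end Pool.Agent.MNE.H94
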